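import Pool.Agent.Helper86.TC8.Stmts
import Pool.Agent.Helper86.TC8.Base

/-!
TC8, row SUM2: the sum over the walkers.
-/

set_option autoImplicit false

namespace Pool.Agent.Helper25.TC8

open Finset
open Pool.Agent.Helper86.TC8
open scoped Classical

variable {V : Type}

/-- a follower is a prefix of every longer follower -/
theorem follows_take (G : CG V) (Z P : V → Bool) : ∀ (l l' : List Bool) (h : WS V),
    follows G Z P l h → follows G Z P l' h → l'.length ≤ l.length → l' = l.take l'.length := by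
  intro l
  induction l with
  | nil =>
    intro l' h _ _ hl
    have : l' = [] := List.length_eq_zero_iff.mp (Nat.le_zero.mp hl)
    rw [this]
    rfl
  | cons β l ih =>
    intro l' h h1 h2 hl
    cases l' with
    | nil => rfl
    | cons β' l' =>
      obtain ⟨a1, a2, a3⟩ := h1
      obtain ⟨b1, b2, b3⟩ := h2
      have hβ : β' = β := by rw [← b1, a1]
      subst hβ
      have h3 := ih l' _ a3 b3 (Nat.le_of_succ_le_succ hl)
      rw [List.length_cons, List.take_succ_cons, ← h3]

/-- number of walker states at which `i` is touched -/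
theorem card_tch [Fintype V] (hTCH : ST_TCH) (C : Ctx V) (R D0 D1 : ℕ) (H : Hyp C R D0 D1)
    (i : Idx V) : ((univ : Finset (WS V)).filter fun h => Tch C i h.2).card ≤
      2 * (6 * (C.K + 1) + 2) := by
  have h1 : ((univ : Finset (WS V)).filter fun h => Tch C i h.2) =
      (univ : Finset Bool) ×ˢ (univ.filter fun x => Tch C i x) := by
    ext h
    simp only [mem_filter, mem_product, mem_univ, true_and]
  rw [h1, card_product]
  have h2 := hTCH V C R D0 D1 H i
  have h3 : (univ : Finset Bool).card = 2 := rfl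
  rw [h3]
  exact Nat.mul_le_mul_left 2 h2

theorem div_bound (k n D : ℕ) (hk : k ≤ n) (hD : 1 ≤ D) : n / D - 2 ≤ k / D + (n - k) / D := by
  have h1 := Nat.div_add_mod k D
  have h2 := Nat.div_add_mod (n - k) D
  have h3 := Nat.div_add_mod n D
  have h4 := Nat.mod_lt k (show 0 < D by omega)
  have h5 := Nat.mod_lt (n - k) (show 0 < D by omega)
  have h6 : D * (n / D) < D * (k / D + (n - k) / D + 2) := by
    have : D * (k / D + (n - k) / D + 2) = D * (k / D) + D * ((n - k) / D) + 2 * D := by ring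
    rw [this]
    omega
  have h7 := Nat.lt_of_mul_lt_mul_left h6
  clear h1 h2 h3 h4 h5 h6
  generalize n / D = a at *
  generalize k / D = b at *
  generalize (n - k) / D = c at *
  omega

/-- SUM2 -/
theorem st_SUM2 (hFOL : ST_FOL) (hE2P : ST_E2P) (hCNT : ST_CNT) (hTCH : ST_TCH) (hPR : ST_PR) :
    ST_SUM2 := by
  intro V _ C R D0 D1 H i
  obtain ⟨f1, f2, f3⟩ := hFOL
  obtain ⟨g1, g2, g3, g4⟩ := f3 V C (fun _ => false)
  obtain ⟨ρ, hρ⟩ : ∃ ρ : ℝ, ρ = 1 - 1 / 2 ^ D1 := ⟨_, rfl⟩
  have hρ0 : 0 ≤ ρ := by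
    rw [hρ, sub_nonneg, div_le_one (by positivity)]
    exact one_le_pow₀ (by norm_num)
  have hρ1 : ρ ≤ 1 := by
    rw [hρ]
    have : (0 : ℝ) ≤ 1 / 2 ^ D1 := by positivity
    linarith
  -- the pairs
  obtain ⟨S, hS⟩ : ∃ S : WS V → Finset (List Bool × ℕ), S = fun h =>
    (bl C.LF ×ˢ range C.LF).filter fun q => avoidF C.G C.Z q.1 h ∧
      Tch C i (walkF C.G (q.1.take q.2) h).2 := ⟨_, rfl⟩
  have h1 : ∀ h : WS V, pr (fun ω => E2 C h ω ∧ i ∈ X2 C h ω) ≤
      ((S h).card : ℝ) * (1 / 2) ^ C.LF := by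
    intro h
    have h2 : pr (fun ω => E2 C h ω ∧ i ∈ X2 C h ω) ≤ ∑ q ∈ S h,
        pr (fun ω : Idx V → Bool => C.Z h.2 = false ∧ follows C.G C.Z (PP C ω) q.1 h) := by
      apply (hPR (Idx V)).2.2.1
      rintro ω ⟨⟨a1, a2⟩, a3⟩
      obtain ⟨e1, e2, e3, e4⟩ := f3 V C (PP C ω)
      obtain ⟨l, hl, hl'⟩ := (e2 C.LF h).mp a2
      obtain ⟨l', c1, c2, c3⟩ := e4 C.LF h i a3
      have hlen : l.length = C.LF := (f1 _ _).mp hl
      have hp := follows_take C.G C.Z (PP C ω) l l' h hl' c2 (by omega)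
      refine ⟨(l, l'.length), ?_, a1, hl'⟩
      rw [hS, mem_filter, mem_product]
      refine ⟨⟨hl, mem_range.mpr c1⟩, e1 l h a1 hl', ?_⟩
      show Tch C i (walkF C.G (l.take l'.length) h).2
      rw [← hp]
      exact c3
    refine h2.trans ?_
    rw [← nsmul_eq_mul, ← sum_const]
    apply sum_le_sum
    intro q hq
    rw [hS, mem_filter, mem_product] at hq
    have hlen : q.1.length = C.LF := (f1 _ _).mp hq.1.1
    by_cases hZ : C.Z h.2 = false
    · have h3 := hE2P V C R D0 D1 H q.1 h hZ (by omega)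
      rw [hlen] at h3
      refine le_trans ((hPR (Idx V)).1 _ _ (fun ω hω => hω.2)) h3
    · have h3 : pr (fun ω : Idx V → Bool => C.Z h.2 = false ∧ follows C.G C.Z (PP C ω) q.1 h) ≤
          pr (fun _ : Idx V → Bool => False) :=
        (hPR (Idx V)).1 _ _ (fun ω hω => hZ hω.1)
      have h4 : pr (fun _ : Idx V → Bool => False) = 0 := by
        unfold pr
        rw [filter_false, card_empty]
        simp
      rw [h4] at h3
      refine h3.trans (by positivity)
  -- counting
  have h2 : ∑ h : WS V, ((S h).card : ℝ) ≤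
      ∑ k ∈ range C.LF, ∑ h' ∈ (univ : Finset (WS V)).filter (fun h' => Tch C i h'.2),
        (((univ ×ˢ bl C.LF).filter fun q : WS V × List Bool =>
          avoidF C.G C.Z q.2 q.1 ∧ walkF C.G (q.2.take k) q.1 = h').card : ℝ) := by
    have h3 : ∑ h : WS V, (S h).card = ∑ k ∈ range C.LF,
        ((univ ×ˢ bl C.LF).filter fun q : WS V × List Bool =>
          avoidF C.G C.Z q.2 q.1 ∧ Tch C i (walkF C.G (q.2.take k) q.1).2).card := by
      have e1 : ∀ h : WS V, (S h).card = ∑ k ∈ range C.LF, ∑ l ∈ bl C.LF,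
          if avoidF C.G C.Z l h ∧ Tch C i (walkF C.G (l.take k) h).2 then 1 else 0 := by
        intro h
        rw [hS, card_filter, sum_product, sum_comm]
      have e2 : ∀ k ∈ range C.LF, ((univ ×ˢ bl C.LF).filter fun q : WS V × List Bool =>
          avoidF C.G C.Z q.2 q.1 ∧ Tch C i (walkF C.G (q.2.take k) q.1).2).card =
          ∑ h : WS V, ∑ l ∈ bl C.LF,
          if avoidF C.G C.Z l h ∧ Tch C i (walkF C.G (l.take k) h).2 then 1 else 0 := by
        intro k _
        rw [card_filter, sum_product]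
      rw [sum_congr rfl e2, sum_congr rfl (fun h _ => e1 h), sum_comm]
    have h4 : ∀ k ∈ range C.LF, ((univ ×ˢ bl C.LF).filter fun q : WS V × List Bool =>
          avoidF C.G C.Z q.2 q.1 ∧ Tch C i (walkF C.G (q.2.take k) q.1).2).card =
        ∑ h' ∈ (univ : Finset (WS V)).filter (fun h' => Tch C i h'.2),
        ((univ ×ˢ bl C.LF).filter fun q : WS V × List Bool =>
          avoidF C.G C.Z q.2 q.1 ∧ walkF C.G (q.2.take k) q.1 = h').card := by
      intro k _
      rw [card_eq_sum_card_fiberwise (f := fun q : WS V × List Bool => walkF C.G (q.2.take k) q.1)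
        (t := (univ : Finset (WS V)).filter (fun h' => Tch C i h'.2))]
      · refine sum_congr rfl (fun h' hh' => ?_)
        congr 1
        ext q
        rw [mem_filter, mem_filter, mem_filter]
        rw [mem_filter] at hh'
        constructor
        · rintro ⟨⟨a1, a2, a3⟩, a4⟩
          exact ⟨a1, a2, a4⟩
        · rintro ⟨a1, a2, a3⟩
          refine ⟨⟨a1, a2, ?_⟩, a3⟩
          rw [a3]
          exact hh'.2
      · intro q hq
        rw [mem_coe, mem_filter] at hq
        rw [mem_coe, mem_filter]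
        exact ⟨mem_univ _, hq.2.2⟩
    have h5 : ((∑ h : WS V, (S h).card : ℕ) : ℝ) = ∑ h : WS V, ((S h).card : ℝ) := by
      push_cast
      rfl
    rw [← h5, h3, sum_congr rfl h4]
    push_cast
    exact le_rfl
  have h3 : ∑ h : WS V, ((S h).card : ℝ) ≤
      C.LF * (2 * (6 * (C.K + 1) + 2)) * (2 ^ C.LF * ρ ^ (C.LF / D1 - 2)) := by
    refine h2.trans ?_
    have e1 : ∀ k ∈ range C.LF, ∑ h' ∈ (univ : Finset (WS V)).filter (fun h' => Tch C i h'.2),
        (((univ ×ˢ bl C.LF).filter fun q : WS V × List Bool =>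
          avoidF C.G C.Z q.2 q.1 ∧ walkF C.G (q.2.take k) q.1 = h').card : ℝ) ≤
        (2 * (6 * (C.K + 1) + 2)) * (2 ^ C.LF * ρ ^ (C.LF / D1 - 2)) := by
      intro k hk
      have hk' : k ≤ C.LF := (mem_range.mp hk).le
      have e2 : ∀ h' ∈ (univ : Finset (WS V)).filter (fun h' => Tch C i h'.2),
          (((univ ×ˢ bl C.LF).filter fun q : WS V × List Bool =>
            avoidF C.G C.Z q.2 q.1 ∧ walkF C.G (q.2.take k) q.1 = h').card : ℝ) ≤
            2 ^ C.LF * ρ ^ (C.LF / D1 - 2) := by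
        intro h' _
        have h4 := hCNT V C.G C.Z D1 H.D1pos H.z2f H.z2b h' k C.LF hk'
        rw [← hρ] at h4
        refine h4.trans ?_
        apply mul_le_mul_of_nonneg_left _ (by positivity)
        exact pow_le_pow_of_le_one hρ0 hρ1 (div_bound k C.LF D1 hk' H.D1pos)
      refine (sum_le_sum e2).trans ?_
      rw [sum_const, nsmul_eq_mul]
      apply mul_le_mul_of_nonneg_right _ (by positivity)
      have h5 := card_tch hTCH C R D0 D1 H i
      have h6 : ((((univ : Finset (WS V)).filter fun h => Tch C i h.2).card : ℕ) : ℝ) ≤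
          ((2 * (6 * (C.K + 1) + 2) : ℕ) : ℝ) := by exact_mod_cast h5
      refine h6.trans (le_of_eq ?_)
      push_cast
      rfl
    refine (sum_le_sum e1).trans (le_of_eq ?_)
    rw [sum_const, card_range, nsmul_eq_mul]
    ring
  calc ∑ h : WS V, pr (fun ω => E2 C h ω ∧ i ∈ X2 C h ω)
      ≤ ∑ h : WS V, ((S h).card : ℝ) * (1 / 2) ^ C.LF := sum_le_sum (fun h _ => h1 h)
    _ = (∑ h : WS V, ((S h).card : ℝ)) * (1 / 2) ^ C.LF := by rw [sum_mul]
    _ ≤ (C.LF * (2 * (6 * (C.K + 1) + 2)) * (2 ^ C.LF * ρ ^ (C.LF / D1 - 2))) * (1 / 2) ^ C.LF :=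
        mul_le_mul_of_nonneg_right h3 (by positivity)
    _ = C.LF * (2 * (6 * (C.K + 1) + 2)) * ρ ^ (C.LF / D1 - 2) := by
        have : (2 : ℝ) ^ C.LF * (1 / 2) ^ C.LF = 1 := by
          rw [← mul_pow]
          norm_num
        calc _ = (C.LF * (2 * (6 * (C.K + 1) + 2)) * ρ ^ (C.LF / D1 - 2)) *
              ((2 : ℝ) ^ C.LF * (1 / 2) ^ C.LF) := by ring
          _ = _ := by rw [this, mul_one]
    _ = _ := by rw [hρ]

end Pool.Agent.Helper25.TC8
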