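import Pool.Agent.Helper25.TC8.SUM2

/-!
TC8, row SUM3: the sum over the centres.
-/

set_option autoImplicit false

namespace Pool.Agent.Helper25.TC8

open Finset
open Pool.Agent.Helper86.TC8
open scoped Classical

/-- SUM3 -/
theorem st_SUM3 (hFOL : ST_FOL) (hE3P : ST_E3P) (hCNT0 : ST_CNT0) (hNBR : ST_NBR)
    (hTCH : ST_TCH) (hPR : ST_PR) : ST_SUM3 := by
  intro V _ C R D0 D1 H u hu hpf i
  obtain ⟨f1, f2, f3⟩ := hFOL
  obtain ⟨c, hc⟩ : ∃ c : ℝ, c = 2 ^ (2 * R + 8) := ⟨_, rfl⟩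
  have hc0 : 0 ≤ c := by rw [hc]; positivity
  -- the index sets
  obtain ⟨T, hT⟩ : ∃ T : ℕ → Finset (WS V × List Bool), T = fun k =>
    (univ ×ˢ bl k).filter fun p => Tch C i (walkF C.G p.2 p.1).2 := ⟨_, rfl⟩
  obtain ⟨S, hS⟩ : ∃ S : V × L → ℕ → Finset (WS V × List Bool), S = fun q k =>
    (T k).filter fun p => p.1.2 ∈ br C.G R q.2 (act1 C.G q.2 q.1) := ⟨_, rfl⟩
  have h1 : ∀ q : V × L, pr (fun ω => E3 C R q.1 q.2 ω ∧ i ∈ X3 C R q.1 q.2 ω) ≤
      ∑ k ∈ range (C.LF + 1), ((S q k).card : ℝ) * (c * (1 / 2) ^ k * u) := by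
    intro q
    have h2 : pr (fun ω => E3 C R q.1 q.2 ω ∧ i ∈ X3 C R q.1 q.2 ω) ≤
        ∑ e ∈ (range (C.LF + 1)).sigma (fun k => S q k),
        pr (fun ω : Idx V → Bool => E3 C R q.1 q.2 ω ∧
          follows C.G C.Z (PP C ω) e.2.2 (e.2.1.1, e.2.1.2)) := by
      apply (hPR (Idx V)).2.2.1
      rintro ω ⟨a1, a2⟩
      obtain ⟨e1, e2, e3, e4⟩ := f3 V C (PP C ω)
      unfold X3 at a2
      rw [mem_biUnion] at a2
      obtain ⟨y, hy, hy'⟩ := a2
      have h3 : ∃ t0 : Bool, i ∈ rdW C (PP C ω) (C.LF + 1) (t0, y) := by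
        rcases mem_union.mp hy' with h | h
        · exact ⟨false, h⟩
        · exact ⟨true, h⟩
      obtain ⟨t0, ht0⟩ := h3
      obtain ⟨l, c1, c2, c3⟩ := e4 (C.LF + 1) (t0, y) i ht0
      refine ⟨⟨l.length, ((t0, y), l)⟩, ?_, a1, c2⟩
      rw [mem_sigma, hS, hT]
      refine ⟨mem_range.mpr c1, ?_⟩
      rw [mem_filter, mem_filter, mem_product]
      exact ⟨⟨⟨mem_univ _, (f1 _ _).mpr rfl⟩, c3⟩, hy⟩
    refine h2.trans ?_
    rw [sum_sigma]
    apply sum_le_sum
    intro k hk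
    rw [← nsmul_eq_mul, ← sum_const]
    apply sum_le_sum
    intro p hp
    rw [hS, hT, mem_filter, mem_filter, mem_product] at hp
    have hlen : p.2.length = k := (f1 _ _).mp hp.1.1.2
    have hk' := mem_range.mp hk
    have h3 := hE3P V C R D0 D1 H q.1 q.2 u p.1.2 p.1.1 p.2 hp.2 (by omega) (hpf q.2)
    rw [hlen, ← hc] at h3
    exact h3
  -- counting
  have h2 : ∀ k, ∑ q : V × L, ((S q k).card : ℝ) ≤ 2 ^ (R + 3) * ((T k).card : ℝ) := by
    intro k
    have h3 : ∑ q : V × L, (S q k).card = ∑ p ∈ T k,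
        (univ.filter fun q : V × L => p.1.2 ∈ br C.G R q.2 (act1 C.G q.2 q.1)).card := by
      have e1 : ∀ q : V × L, (S q k).card = ∑ p ∈ T k,
          if p.1.2 ∈ br C.G R q.2 (act1 C.G q.2 q.1) then 1 else 0 := by
        intro q
        rw [hS, card_filter]
      have e2 : ∀ p ∈ T k,
          (univ.filter fun q : V × L => p.1.2 ∈ br C.G R q.2 (act1 C.G q.2 q.1)).card =
          ∑ q : V × L, if p.1.2 ∈ br C.G R q.2 (act1 C.G q.2 q.1) then 1 else 0 := by
        intro p _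
        rw [card_filter]
      rw [sum_congr rfl e2, sum_congr rfl (fun q _ => e1 q), sum_comm]
    have h4 : ∑ q : V × L, (S q k).card ≤ 2 ^ (R + 3) * (T k).card := by
      rw [h3]
      calc _ ≤ ∑ p ∈ T k, 2 ^ (R + 3) := sum_le_sum (fun p _ => (hNBR V C.G R).1 p.1.2)
        _ = 2 ^ (R + 3) * (T k).card := by rw [sum_const, smul_eq_mul, mul_comm]
    exact_mod_cast h4
  have h3 : ∀ k, ((T k).card : ℝ) ≤ (2 * (6 * (C.K + 1) + 2)) * 2 ^ k := by
    intro k
    have h4 : (T k).card = ∑ h' ∈ (univ : Finset (WS V)).filter (fun h' => Tch C i h'.2),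
        ((univ ×ˢ bl k).filter fun q : WS V × List Bool => walkF C.G q.2 q.1 = h').card := by
      rw [hT]
      show ((univ ×ˢ bl k).filter fun p : WS V × List Bool =>
        Tch C i (walkF C.G p.2 p.1).2).card = _
      rw [card_eq_sum_card_fiberwise (f := fun q : WS V × List Bool => walkF C.G q.2 q.1)
        (t := (univ : Finset (WS V)).filter (fun h' => Tch C i h'.2))]
      · refine sum_congr rfl (fun h' hh' => ?_)
        congr 1
        ext q
        rw [mem_filter, mem_filter, mem_filter]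
        rw [mem_filter] at hh'
        constructor
        · rintro ⟨⟨a1, a2⟩, a4⟩
          exact ⟨a1, a4⟩
        · rintro ⟨a1, a3⟩
          refine ⟨⟨a1, ?_⟩, a3⟩
          rw [a3]
          exact hh'.2
      · intro q hq
        rw [mem_coe, mem_filter] at hq
        rw [mem_coe, mem_filter]
        exact ⟨mem_univ _, hq.2⟩
    have h5 : (T k).card = ((univ : Finset (WS V)).filter (fun h' => Tch C i h'.2)).card * 2 ^ k := by
      rw [h4, sum_congr rfl (fun h' _ => hCNT0 V C.G h' k), sum_const, smul_eq_mul]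
    have h6 : (T k).card ≤ (2 * (6 * (C.K + 1) + 2)) * 2 ^ k := by
      rw [h5]
      exact Nat.mul_le_mul_right _ (card_tch hTCH C R D0 D1 H i)
    exact_mod_cast h6
  calc ∑ q : V × L, pr (fun ω => E3 C R q.1 q.2 ω ∧ i ∈ X3 C R q.1 q.2 ω)
      ≤ ∑ q : V × L, ∑ k ∈ range (C.LF + 1), ((S q k).card : ℝ) * (c * (1 / 2) ^ k * u) :=
        sum_le_sum (fun q _ => h1 q)
    _ = ∑ k ∈ range (C.LF + 1), (∑ q : V × L, ((S q k).card : ℝ)) * (c * (1 / 2) ^ k * u) := by
        rw [sum_comm]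
        exact sum_congr rfl (fun k _ => by rw [sum_mul])
    _ ≤ ∑ k ∈ range (C.LF + 1), (2 ^ (R + 3) * ((2 * (6 * (C.K + 1) + 2)) * 2 ^ k)) *
          (c * (1 / 2) ^ k * u) := by
        apply sum_le_sum
        intro k _
        apply mul_le_mul_of_nonneg_right _ (by positivity)
        exact (h2 k).trans (mul_le_mul_of_nonneg_left (h3 k) (by positivity))
    _ = ∑ k ∈ range (C.LF + 1), 2 ^ (R + 3) * (c * u * (2 * (6 * (C.K + 1) + 2))) := by
        apply sum_congr rfl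
        intro k _
        have : (2 : ℝ) ^ k * (1 / 2) ^ k = 1 := by
          rw [← mul_pow]
          norm_num
        calc _ = (2 ^ (R + 3) * (c * u * (2 * (6 * (C.K + 1) + 2)))) *
              ((2 : ℝ) ^ k * (1 / 2) ^ k) := by ring
          _ = _ := by rw [this, mul_one]
    _ = _ := by
        rw [sum_const, card_range, nsmul_eq_mul, hc]
        push_cast
        ring

end Pool.Agent.Helper25.TC8
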